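import Pool.Agent.Lib.MP_7bd86d_co.Basic

/-! Number of components left by a cutset of a minimally non-2-divisible graph. -/

namespace Pool.Agent.Results.MP_7bd86d_co.ComponentBound

open MP7bd86d

/-- Let `G` be minimally non-2-divisible and `C` a set of vertices (a clique or not) such that
`G - C` is disconnected. Then `G - C` has at most `2 ^ (|C| - 1)` components. In particular
`|C| ≥ 2`, and `G - C` has exactly two components if `|C| = 2`. -/
theorem result {V : Type*} [Finite V] (G : SimpleGraph V) (hG : MinNonTwoDivisible G)
    (C : Set V) (hcut : ¬ (G.induce Cᶜ).Preconnected) :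
    Nat.card (G.induce Cᶜ).ConnectedComponent ≤ 2 ^ (C.ncard - 1) :=
  card_components hG hcut

end Pool.Agent.Results.MP_7bd86d_co.ComponentBound
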