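import Pool.Agent.Lib.MP_7bd86d_co.Claw

/-! Every side of a clique cutset of a minimally non-2-divisible graph contains an induced claw. -/

namespace Pool.Agent.Results.MP_7bd86d_co.SideClaw

open MP7bd86d

/-- Let `G` be minimally non-2-divisible with a clique cutset `C`, and `A` a union of components of
`G - C`, neither empty nor everything. Then `G[A ∪ C]` contains an induced claw: a vertex `v` with
three pairwise distinct and pairwise non-adjacent neighbours `x`, `y`, `z`, all in `A ∪ C`. -/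
theorem result {V : Type*} [Finite V] (G : SimpleGraph V) (hG : MinNonTwoDivisible G)
    (C A : Set V) (hC : G.IsClique C) (hA : IsSide G C A) :
    ∃ v ∈ A ∪ C, ∃ x ∈ A ∪ C, ∃ y ∈ A ∪ C, ∃ z ∈ A ∪ C, G.Adj v x ∧ G.Adj v y ∧ G.Adj v z ∧
      x ≠ y ∧ y ≠ z ∧ x ≠ z ∧ ¬ G.Adj x y ∧ ¬ G.Adj y z ∧ ¬ G.Adj x z :=
  side_claw hG hC hA

end Pool.Agent.Results.MP_7bd86d_co.SideClaw
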