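import Pool.Agent.Lib.MP_7bd86d_co.Basic

/-! The sides of a clique cutset of a minimally non-2-divisible graph are hard to colour. -/

namespace Pool.Agent.Results.MP_7bd86d_co.SideColouring

open MP7bd86d

/-- Let `G` be minimally non-2-divisible with a clique cutset `C`, and `A` a union of components of
`G - C`, neither empty nor everything. Let `C ⊆ Z ⊆ A ∪ C` be a set with `χ(G[Z]) ≤ m` and let `r` be
the clique number of the rest `(A ∪ C) \ Z` of the side. If `r + ⌊|C| / 2⌋ < ω(G)` then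
`m + r ≥ 2 ω(G) - 1`, and if `r ≥ 2` then `m + 2 r > 2 ω(G)`. -/
theorem result {V : Type*} [Finite V] (G : SimpleGraph V) (hG : MinNonTwoDivisible G)
    (C A Z : Set V) (hC : G.IsClique C) (hA : IsSide G C A) (hCZ : C ⊆ Z) (_hZ : Z ⊆ A ∪ C)
    (m : ℕ) (hm : (G.induce Z).Colorable m) :
    ((G.induce ((A ∪ C) \ Z)).cliqueNum + C.ncard / 2 < G.cliqueNum →
      2 * G.cliqueNum ≤ m + (G.induce ((A ∪ C) \ Z)).cliqueNum + 1) ∧
    (2 ≤ (G.induce ((A ∪ C) \ Z)).cliqueNum →
      2 * G.cliqueNum < m + 2 * (G.induce ((A ∪ C) \ Z)).cliqueNum) :=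
  side_result G hG C A Z hC hA hCZ m hm

end Pool.Agent.Results.MP_7bd86d_co.SideColouring
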